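import Pool.Agent.L5helper45.IN.Low

set_option autoImplicit false

/-! # Progression-free subsets of `{1, …, N}`: counting and random sets, for every `N`

Let `k ≥ 3` and `r N` be the largest size of a subset of `{1, …, N}` without arithmetic progressions
of length `k` (`k = 3`: the function `r_3` of the question).

(1) For EVERY `N` the number of the `k`-AP-free subsets of `{1, …, N}` is between `2 ^ r N` and
`2 ^ (C r N)`.  (Balogh, Liu and Sharifzadeh proved this for infinitely many `N`.)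

(2), (3) Let `0 < q ≤ 1`, `q ^ (k-1) N` large and `F = r ⌊q ^ (k-1) N⌋ / q ^ (k-2)`.  The largest
`k`-AP-free subset of the random subset of `{1, …, N}` of density `q` has size between `c F` and
`C F` with probability at least `1 - ε`; and the number of the `k`-AP-free subsets with `t` elements
is at most `exp (C F) / q ^ t` for all `t`, and at least `(1 - ε) / q ^ t` for `t ≤ c F`.  So for every
`N` the size of the largest progression-free subset of sparse random sets, and the number of the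
progression-free sets of each size, are given by the function `r` up to constants (which are
independent of `N` and `q`), although the order of magnitude of `r` is not known.

(4) If `m |A| ≥ 8 N r m` then `A ⊆ {1, …, N}` contains at least `|A| N / (2 m)` progressions; and sets
with `|A| = K r N`, `K` large, contain at least `K ^ g |A|` progressions, for every `N` and `g`.

Proof: Varnavides' argument in `Z/p`, the product inequality `r m r M ≤ r ((2 m - 1) M)` and
Behrend's theorem give (4) and its version relative to `r m`, `m ≤ N`; a container theorem which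
keeps the fingerprints gives (2); (3) is the deletion method applied to unions of intervals of length
`c / q ^ (k-1)` around the points of a dilated extremal set. -/

namespace Pool.Agent.Results.MP_0f71ae_nt.CountingAndSparseSubsets

open Finset
open Pool.Agent.H617R3.AP (APFree r exists_opt card_le_r)
open Pool.Agent.L5helper45.IN

/-- `F = r_k(⌊q ^ (k-1) N⌋) / q ^ (k-2)` -/
noncomputable def F (k N : ℕ) (q : ℝ) : ℝ := (r k ⌊q ^ (k - 1) * N⌋₊ : ℝ) / q ^ (k - 2)

theorem result (k : ℕ) (hk : 3 ≤ k) :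
    -- (1) the number of all sets
    (∃ C : ℕ, ∀ N : ℕ, 2 ^ r k N ≤ {A : Finset ℕ | A ⊆ Icc 1 N ∧ APFree k A}.ncard ∧
      {A : Finset ℕ | A ⊆ Icc 1 N ∧ APFree k A}.ncard ≤ 2 ^ (C * r k N)) ∧
    -- (2) upper bounds
    (∃ C : ℝ, 0 < C ∧ ∀ (N : ℕ) (q : ℝ), 0 < q → q ≤ 1 → 1 ≤ q ^ (k - 1) * N →
      (∀ t : ℕ, ({A : Finset ℕ | A ⊆ Icc 1 N ∧ APFree k A ∧ A.card = t}.ncard : ℝ) ≤
        Real.exp (C * F k N q) / q ^ t) ∧
      prob (Icc 1 N) q (fun R => ∃ A ⊆ R, APFree k A ∧ C * F k N q ≤ (A.card : ℝ)) ≤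
        Real.exp (-F k N q)) ∧
    -- (3) lower bounds
    (∀ ε : ℝ, 0 < ε → ε ≤ 1 → ∃ M : ℝ, ∀ (N : ℕ) (q : ℝ), 0 < q → q ≤ 1 → M ≤ q ^ (k - 1) * N →
      (∀ t : ℕ, (t : ℝ) ≤ ε / 256 * F k N q →
        (1 - ε) / q ^ t ≤ ({A : Finset ℕ | A ⊆ Icc 1 N ∧ APFree k A ∧ A.card = t}.ncard : ℝ)) ∧
      1 - ε ≤ prob (Icc 1 N) q
        (fun R => ∃ A ⊆ R, APFree k A ∧ ε / 256 * F k N q ≤ (A.card : ℝ))) ∧
    -- (4) supersaturation
    (∀ N m : ℕ, 1 ≤ m → m ≤ N → ∀ A ⊆ Icc 1 N, 8 * N * r k m ≤ m * A.card →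
      N * A.card ≤ 2 * m * (aps k N A).card) ∧
    (∀ g : ℝ, 0 < g → ∃ K₀ : ℝ, 0 < K₀ ∧ ∀ N : ℕ, ∀ A ⊆ Icc 1 N, K₀ * r k N ≤ (A.card : ℝ) →
      (A.card : ℝ) * ((A.card : ℝ) / r k N) ^ g ≤ ((aps k N A).card : ℝ)) := by
  classical
  have hset : ∀ N : ℕ, {A : Finset ℕ | A ⊆ Icc 1 N ∧ APFree k A} =
      ↑((Icc 1 N).powerset.filter (fun A => APFree k A)) := by
    intro N
    ext A; simp
  have hset' : ∀ N t : ℕ, {A : Finset ℕ | A ⊆ Icc 1 N ∧ APFree k A ∧ A.card = t} =
      ↑((Icc 1 N).powerset.filter (fun A => APFree k A ∧ A.card = t)) := by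
    intro N t
    ext A; simp
  refine ⟨?_, ?_, ?_, ?_, ?_⟩
  · obtain ⟨C, hC⟩ := count_all hk
    refine ⟨C, fun N => ?_⟩
    rw [hset, Set.ncard_coe_finset]
    refine ⟨?_, hC N⟩
    obtain ⟨A, hA, hA2, hA3⟩ := exists_opt (k := k) (by omega) N
    rw [← hA3, ← card_powerset]
    refine card_le_card fun B hB => mem_filter.2 ⟨?_, hA2.mono (mem_powerset.1 hB)⟩
    exact mem_powerset.2 ((mem_powerset.1 hB).trans hA)
  · obtain ⟨C₁, hC₁, h1⟩ := rand_upper hk
    obtain ⟨C₂, hC₂, h2⟩ := count_upper hk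
    refine ⟨C₁ + C₂, by positivity, fun N q hq0 hq1 hx => ?_⟩
    have hF : 0 ≤ F k N q := div_nonneg (Nat.cast_nonneg _) (by positivity)
    constructor
    · intro t
      rw [hset', Set.ncard_coe_finset, le_div_iff₀ (by positivity)]
      refine (h2 N q t hq0 hq1 hx).trans (Real.exp_le_exp.2 ?_)
      exact mul_le_mul_of_nonneg_right (by linarith) hF
    · refine le_trans (prob_mono hq0.le hq1 ?_) (h1 N q hq0 hq1 hx)
      rintro R _ ⟨A, hA, hA2, hA3⟩
      refine ⟨A, hA, hA2, le_trans ?_ hA3⟩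
      exact mul_le_mul_of_nonneg_right (by linarith) hF
  · intro ε hε hε1
    obtain ⟨M₁, h1⟩ := rand_lower hk hε hε1
    obtain ⟨M₂, h2⟩ := count_lower hk hε hε1
    refine ⟨max M₁ M₂, fun N q hq0 hq1 hx => ⟨fun t ht => ?_, ?_⟩⟩
    · rw [hset', Set.ncard_coe_finset, div_le_iff₀ (by positivity)]
      exact h2 N q t hq0 hq1 ((le_max_right _ _).trans hx) ht
    · exact h1 N q hq0 hq1 ((le_max_left _ _).trans hx)
  · intro N m hm hmN A hA h
    exact vary (by omega) (hm.trans hmN) hm hmN hA h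
  · intro g hg
    obtain ⟨K₀, hK₀, h⟩ := ss_int hk hg
    refine ⟨K₀, hK₀, fun N A hA hAc => ?_⟩
    rcases Nat.eq_zero_or_pos N with hN | hN
    · subst hN
      have : A = ∅ := by
        rw [← subset_empty]
        simpa using hA
      rw [this]
      simp
    · have hN0 : (0 : ℝ) < N := by exact_mod_cast hN
      have hs : (N : ℝ) * r k N / N = r k N := by field_simp
      have h1 := h N N hN le_rfl A hA (by rw [hs]; exact hAc)
      rwa [hs, div_self hN0.ne', one_mul] at h1

end Pool.Agent.Results.MP_0f71ae_nt.CountingAndSparseSubsets
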