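import Pool.Agent.L5helper7.AC.DigitBlocks
import Pool.Agent.Helper868.DHJ

set_option autoImplicit false

/-!
# Sets without arithmetic progressions and circuits of constant depth on the digits

We consider sets `A` of integers in `[0, b ^ n)` and circuits of constant depth which read the `n`
digits in base `b` (arbitrary tests of one digit, AND and OR gates of unbounded fan-in, arbitrary
gates of bounded fan-in).

(1) Let `k ≤ b` and let `A` contain no `k`-term progression whose common difference has only the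
digits `0` and `1`. If `A` is the support of a polynomial of degree `q`, over any field, in the
indicator functions of `T` sets decided by such circuits, then `A` has a power saving. (2) So this
holds for circuits with one counting gate at the top. (3) Therefore sets of Behrend's size without
three-term progressions, and the sets with `r_3(b ^ n)` elements, need circuits of size
`2 ^ (δ n ^ (1 / (2 (d + 1))))`. (4), (5) *Every* set without progressions has small relative
density in every set `F` decided by such a circuit, even if `F` has only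
`b ^ n 2 ^ (- c n / loss)` elements.

Proof of (1). Take a random restriction `ρ` of the `n` places and a random word `x`. Let `u` be the
word with `u + j 1_S = x` modulo `b` in every digit, where `S` is the set of the places which `ρ`
fixes to `1`. For fixed `j` and `ρ` the map `x ↦ u` is a bijection, so the Boolean circuits
`y ↦ C(u + j y)` are typical, and all of them have small decision trees after `ρ`. The functions
`y ↦ [x + j 1_{W(y)} ∈ A]` on the free subcube are supports of polynomials of small degree. We fix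
the free places at which the digit of `x` is larger than `b - k`; in the other free places there is
no carry, so the product of the `k` functions is supported at one point if `x ∈ A`, which needs
full degree. Proof of (4), (5). The total sensitivity of the circuits is small, so random changes of
a block of `m` digits rarely leave `F`, while they meet `A` with probability at most
`r_3(b ^ m) / b ^ m`.
-/

namespace Pool.Agent.Results.MP_0f71ae_nt.DigitCircuits

open Finset hiding ext dens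
open Function
open Pool.Agent.N381.AC
open Pool.Agent.L5helper7.AC hiding poly_bound poly_main
open Pool.Agent.Helper868.DHJ (LineFree dens pt ind av av_eq_sum density_hales_jewett)

/-- `A` contains no progression `a, a + d, …, a + (k - 1) d` such that `d > 0` and all digits of `d`
in base `b` are `0` or `1`. -/
def BinaryAPFree (k b : ℕ) (A : Finset ℕ) : Prop :=
  ∀ a d : ℕ, 0 < d → (∀ i, d / b ^ i % b ≤ 1) → ¬ ∀ i < k, a + i * d ∈ A

/-- `F` is a set of integers in `[0, b ^ n)` decided by a circuit of depth at most `d` (the input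
tests have depth `≥ 0`) which reads the `n` digits in base `b`; the number of its nodes plus `n` is
at most `2 ^ ℓ`. The nodes are arbitrary tests of one digit, AND and OR gates of any number of
wires and arbitrary gates with at most `w` wires; negations are free. -/
def Decided (b w ℓ d n : ℕ) (F : Finset ℕ) : Prop :=
  ∃ (C : Circuit w ℕ n) (o : C.Node), n + Nat.card C.Node ≤ 2 ^ ℓ ∧ (∀ v, C.depth v ≤ d) ∧
    ∀ a, a ∈ F ↔ a < b ^ n ∧ C.val o (fun i => a / b ^ (i : ℕ) % b) = true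

/-- `A` is a set of integers in `[0, b ^ n)` and in this interval it is the support of a polynomial
of total degree at most `q`, over some field, in the indicator functions of `T` sets decided by
circuits. -/
def SupportOf (b w ℓ d n T q : ℕ) (A : Finset ℕ) : Prop :=
  ∃ (K : Type) (_ : Field K) (F : Fin T → Finset ℕ) (P : MvPolynomial (Fin T) K),
    (∀ i, Decided b w ℓ d n (F i)) ∧ P.totalDegree ≤ q ∧
    ∀ a, a ∈ A ↔ a < b ^ n ∧ MvPolynomial.eval (fun i => if a ∈ F i then (1 : K) else 0) P ≠ 0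

/-- `(2 ^ (d + 10) w ℓ) ^ (d + 1)` -/
def loss (w ℓ d : ℕ) : ℕ := (2 ^ (d + 10) * (w * ℓ)) ^ (d + 1)

/-- `4 (4 ^ (k q ℓ) + k T) b ^ n 2 ^ (- n / (2 (k q (d + 1) + 1) k loss))` -/
noncomputable def bound (k b w ℓ d n T q : ℕ) : ℝ :=
  4 * (4 ^ (k * q * ℓ) + k * T) * (b : ℝ) ^ n *
    (2 : ℝ) ^ (-((n : ℝ) / (2 * (k * q * (d + 1) + 1) * (k * loss w ℓ d))))

/-- the number of the sets `F i` which contain `a` -/
def count {T : ℕ} (F : Fin T → Finset ℕ) (a : ℕ) : ℕ := (univ.filter fun i => a ∈ F i).card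

theorem main {k b n w ℓ d T q : ℕ} (hk : 2 ≤ k) (hkb : k ≤ b) (hw : 1 ≤ w) (hℓ : 1 ≤ ℓ)
    (A : Finset ℕ) (hA : BinaryAPFree k b A) (h : SupportOf b w ℓ d n T q A) :
    (A.card : ℝ) ≤ bound k b w ℓ d n T q := by
  classical
  have hb2 : 2 ≤ b := hk.trans hkb
  have : NeZero b := ⟨by omega⟩
  obtain ⟨K, _, F, P, hF, hP, hval⟩ := h
  choose C o hs hd hC using hF
  have hword : ∀ x : Fin n → ZMod b, (fun i : Fin n => nm x / b ^ (i : ℕ) % b) =
      fun i => (x i).val := fun x => funext fun i => nm_digit x i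
  obtain ⟨Z, hZ⟩ : ∃ Z : Finset (ZMod b), Z = univ.filter fun a => a.val + k ≤ b := ⟨_, rfl⟩
  have hZc : b - k + 1 ≤ Z.card := by
    have h1 : (range (b - k + 1)).image (fun i : ℕ => (i : ZMod b)) ⊆ Z := by
      intro a ha
      obtain ⟨i, hi, rfl⟩ := mem_image.1 ha
      rw [mem_range] at hi
      rw [hZ, mem_filter, ZMod.val_natCast_of_lt (by omega)]
      exact ⟨mem_univ _, by omega⟩
    have h2 := card_le_card h1
    rw [card_image_of_injOn, card_range] at h2
    · exact h2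
    · intro i hi j hj hij
      have hi' : i < b - k + 1 := by simpa using hi
      have hj' : j < b - k + 1 := by simpa using hj
      have := congrArg ZMod.val hij
      simp only at this
      rwa [ZMod.val_natCast_of_lt (by omega), ZMod.val_natCast_of_lt (by omega)] at this
  have hZk : Fintype.card (ZMod b) ≤ k * Z.card := by
    rw [ZMod.card]
    have h1 : k * (b - k + 1) ≤ k * Z.card := Nat.mul_le_mul_left _ hZc
    refine le_trans ?_ h1
    obtain ⟨e, rfl⟩ : ∃ e, b = k + e := ⟨b - k, by omega⟩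
    rw [show k + e - k + 1 = e + 1 by omega]
    nlinarith
  have h1 := Pool.Agent.L5helper7.AC.poly_bound (K := K) (k := k) (L := ZMod b) hℓ hw
    (fun j _ => Equiv.addRight ((j : ℕ) : ZMod b)) Z (by omega : 1 ≤ k) hZk (wd b n A) (by
      intro x W hW h
      by_contra hne
      have hWne : W.Nonempty := nonempty_iff_ne_empty.2 hne
      refine hA (nm x) (∑ i ∈ W, b ^ (i : ℕ)) ?_ (digits_le_one hb2 W) ?_
      · exact sum_pos (fun v _ => Nat.pow_pos (by omega)) hWne
      · intro j hj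
        have h3 := mem_wd.1 (h ⟨j, hj⟩)
        have h4 : mix (fun _ : Fin n => Equiv.addRight (((⟨j, hj⟩ : Fin k) : ℕ) : ZMod b)) W x =
            fun i => if i ∈ W then x i + (j : ZMod b) else x i := by
          funext v
          by_cases hv : v ∈ W <;> simp [mix, hv]
        rw [h4, nm_add x W j] at h3
        · exact h3
        · intro i hi
          have h5 := hW i hi
          rw [hZ, mem_filter] at h5
          omega)
    (fun i => comap ZMod.val (C i)) o hs hd P hP (by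
      intro x
      rw [mem_wd, hval]
      have e : (fun i => if nm x ∈ F i then (1 : K) else 0) =
          fun i => if (comap ZMod.val (C i)).val (o i) x = true then (1 : K) else 0 := by
        funext i
        have h2 := hC i (nm x)
        rw [hword x] at h2
        by_cases h : nm x ∈ F i
        · rw [if_pos h, if_pos]
          exact (h2.1 h).2
        · rw [if_neg h, if_neg]
          intro hh
          exact h (h2.2 ⟨nm_lt x, hh⟩)
      rw [e]
      constructor
      · exact fun h => h.2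
      · exact fun h => ⟨nm_lt x, h⟩)
  rw [ZMod.card, card_wd fun a ha => ((hval a).1 ha).1] at h1
  unfold bound loss
  push_cast
  exact h1

theorem eval_sum {T : ℕ} {K : Type} [Field K] (F : Fin T → Finset ℕ) (x : ℕ) :
    MvPolynomial.eval (fun i => if x ∈ F i then (1 : K) else 0) (∑ i, MvPolynomial.X i) =
      (count F x : K) := by
  rw [map_sum]
  simp only [MvPolynomial.eval_X]
  rw [count, card_filter]
  push_cast
  rfl

theorem deg_sum {T : ℕ} {K : Type} [Field K] (a : K) :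
    (∑ i : Fin T, MvPolynomial.X i - MvPolynomial.C a : MvPolynomial (Fin T) K).totalDegree ≤ 1 := by
  refine (MvPolynomial.totalDegree_sub _ _).trans (max_le ?_ ?_)
  · refine (MvPolynomial.totalDegree_finsetSum_le fun i _ => ?_)
    rw [MvPolynomial.totalDegree_X]
  · rw [MvPolynomial.totalDegree_C]
    exact Nat.zero_le _

theorem support_ne {b w ℓ d n T : ℕ} (A : Finset ℕ) (F : Fin T → Finset ℕ)
    (hF : ∀ i, Decided b w ℓ d n (F i)) (s : ℕ)
    (h : ∀ a, a ∈ A ↔ a < b ^ n ∧ count F a ≠ s) : SupportOf b w ℓ d n T 1 A := by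
  refine ⟨ℚ, inferInstance, F, ∑ i, MvPolynomial.X i - MvPolynomial.C (s : ℚ),
    hF, deg_sum _, fun x => ?_⟩
  rw [map_sub, eval_sum, MvPolynomial.eval_C, h, sub_ne_zero]
  exact_mod_cast Iff.rfl

theorem support_mod {b w ℓ d n T : ℕ} (A : Finset ℕ) (F : Fin T → Finset ℕ)
    (hF : ∀ i, Decided b w ℓ d n (F i)) (t s : ℕ) (hs : s.Prime)
    (h : ∀ a, a ∈ A ↔ a < b ^ n ∧ count F a ≡ t [MOD s]) :
    SupportOf b w ℓ d n T (s - 1) A := by
  have : Fact s.Prime := ⟨hs⟩
  refine ⟨ZMod s, inferInstance, F,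
    1 - (∑ i, MvPolynomial.X i - MvPolynomial.C (t : ZMod s)) ^ (s - 1), hF, ?_, fun x => ?_⟩
  · refine (MvPolynomial.totalDegree_sub _ _).trans (max_le ?_ ?_)
    · rw [MvPolynomial.totalDegree_one]
      exact Nat.zero_le _
    · refine (MvPolynomial.totalDegree_pow _ _).trans ?_
      calc (s - 1) * _ ≤ (s - 1) * 1 := Nat.mul_le_mul_left _ (deg_sum _)
        _ = s - 1 := mul_one _
  · rw [map_sub, map_one, map_pow, map_sub, eval_sum, MvPolynomial.eval_C, h]
    have e : count F x ≡ t [MOD s] ↔ (count F x : ZMod s) - t = 0 := by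
      rw [sub_eq_zero, ZMod.natCast_eq_natCast_iff]
    rw [e]
    refine and_congr_right fun _ => ?_
    constructor
    · intro h0
      rw [h0, zero_pow (by have := hs.two_le; omega), sub_zero]
      exact one_ne_zero
    · intro h1
      by_contra h0
      rw [ZMod.pow_card_sub_one_eq_one h0, sub_self] at h1
      exact h1 rfl

theorem binary_of_three {b : ℕ} {A : Finset ℕ} (hA : ThreeAPFree (A : Set ℕ)) :
    BinaryAPFree 3 b A := by
  intro a d hd _ hcon
  have h0 := hcon 0 (by norm_num)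
  have h1 := hcon 1 (by norm_num)
  have h2 := hcon 2 (by norm_num)
  simp only [zero_mul, add_zero, one_mul] at h0 h1
  have := hA (mem_coe.2 h0) (mem_coe.2 h1) (mem_coe.2 h2) (by ring)
  omega

/-- large sets need large circuits -/
theorem large (b w d q : ℕ) (hb : 3 ≤ b) (hw : 1 ≤ w) (C : ℝ) : ∃ δ : ℝ, 0 < δ ∧
    ∀ (n ℓ T : ℕ) (A : Finset ℕ), 1 ≤ n → 1 ≤ ℓ → T ≤ 2 ^ ℓ → ThreeAPFree (A : Set ℕ) →
      SupportOf b w ℓ d n T q A → (b : ℝ) ^ n * Real.exp (-(C * Real.sqrt n)) ≤ A.card →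
      δ * Real.sqrt n ≤ (ℓ : ℝ) ^ (d + 1) := by
  obtain ⟨M, hM⟩ : ∃ M : ℝ, M = 2 * (3 * q * (d + 1) + 1) * (3 * (2 ^ (d + 10) * w) ^ (d + 1)) :=
    ⟨_, rfl⟩
  have hw' : (1 : ℝ) ≤ w := by exact_mod_cast hw
  have hM0 : 0 < M := by rw [hM]; positivity
  obtain ⟨E, hE⟩ : ∃ E : ℝ, E = 6 * q + 2 * |C| + 6 := ⟨_, rfl⟩
  have hE0 : 0 < E := by rw [hE]; positivity
  refine ⟨min 1 (1 / (M * E)), lt_min one_pos (by positivity), ?_⟩
  intro n ℓ T A hn hℓ hT hfree hsup hlow
  have hn1 : (1 : ℝ) ≤ n := by exact_mod_cast hn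
  have hℓ1 : (1 : ℝ) ≤ ℓ := by exact_mod_cast hℓ
  have hsq : Real.sqrt n * Real.sqrt n = n := Real.mul_self_sqrt (by positivity)
  have hsq1 : 1 ≤ Real.sqrt n := by
    rw [Real.one_le_sqrt]; exact hn1
  have hb0 : (0 : ℝ) < (b : ℝ) ^ n := by
    have : (0 : ℝ) < b := by exact_mod_cast (by omega : 0 < b)
    positivity
  have h1 := main (by norm_num) hb hw hℓ A (binary_of_three hfree) hsup
  obtain ⟨X, hX⟩ : ∃ X : ℝ, X = (n : ℝ) / (2 * (3 * q * (d + 1) + 1) * (3 * loss w ℓ d)) :=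
    ⟨_, rfl⟩
  have hXM : X = n / (M * (ℓ : ℝ) ^ (d + 1)) := by
    rw [hX, hM, loss]
    congr 1
    push_cast
    rw [show (2 : ℝ) ^ (d + 10) * (w * ℓ) = (2 ^ (d + 10) * w) * ℓ by ring, mul_pow]
    ring
  have h2 : (b : ℝ) ^ n * Real.exp (-(C * Real.sqrt n)) ≤
      (b : ℝ) ^ n * (2 ^ ((6 * q + 5) * ℓ) * (2 : ℝ) ^ (-X)) := by
    refine hlow.trans (h1.trans ?_)
    unfold bound
    push_cast
    rw [← hX]
    have h3 : (4 : ℝ) * (4 ^ (3 * q * ℓ) + 3 * T) ≤ 2 ^ ((6 * q + 5) * ℓ) := by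
      have hT' : (T : ℝ) ≤ 2 ^ ℓ := by exact_mod_cast hT
      have h4 : (4 : ℝ) ^ (3 * q * ℓ) = 2 ^ (6 * q * ℓ) := by
        rw [show (4 : ℝ) = 2 ^ 2 by norm_num, ← pow_mul]
        congr 1
        ring
      have h5 : (1 : ℝ) ≤ 2 ^ (6 * q * ℓ) := one_le_pow₀ (by norm_num)
      have h6 : (1 : ℝ) ≤ 2 ^ ℓ := one_le_pow₀ (by norm_num)
      have h7 : (2 : ℝ) ^ 4 ≤ (2 ^ ℓ) ^ 4 := pow_le_pow_left₀ (by norm_num) (by
        calc (2 : ℝ) = 2 ^ 1 := by norm_num
          _ ≤ 2 ^ ℓ := pow_le_pow_right₀ (by norm_num) hℓ) 4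
      have h8 : (2 : ℝ) ^ ((6 * q + 5) * ℓ) = 2 ^ (6 * q * ℓ) * (2 ^ ℓ * (2 ^ ℓ) ^ 4) := by
        rw [← pow_succ', ← pow_mul, ← pow_add]
        congr 1
        ring
      rw [h4, h8]
      have h9 : (2 : ℝ) ^ (6 * q * ℓ) + 3 * T ≤ 2 ^ (6 * q * ℓ) * (4 * 2 ^ ℓ) := by
        have h10 : (2 : ℝ) ^ (6 * q * ℓ) * 1 ≤ 2 ^ (6 * q * ℓ) * 2 ^ ℓ :=
          mul_le_mul_of_nonneg_left h6 (by positivity)
        have h11 : 1 * (2 : ℝ) ^ ℓ ≤ 2 ^ (6 * q * ℓ) * 2 ^ ℓ :=
          mul_le_mul_of_nonneg_right h5 (by positivity)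
        linarith
      calc 4 * ((2 : ℝ) ^ (6 * q * ℓ) + 3 * T) ≤ 4 * (2 ^ (6 * q * ℓ) * (4 * 2 ^ ℓ)) := by
            linarith
        _ = 2 ^ (6 * q * ℓ) * (2 ^ ℓ * 2 ^ 4) := by ring
        _ ≤ _ := by gcongr
    have h14 : (0 : ℝ) < 2 ^ (-X) := by positivity
    calc _ = (b : ℝ) ^ n * ((4 * (4 ^ (3 * q * ℓ) + 3 * T)) * (2 : ℝ) ^ (-X)) := by ring
      _ ≤ _ := by gcongr
  have h3 := le_of_mul_le_mul_left h2 hb0
  -- logarithms
  have hlog2 : Real.log 2 ≤ 1 := by
    have := Real.log_two_lt_d9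
    linarith
  have hlog2' : 1 / 2 ≤ Real.log 2 := by
    have := Real.log_two_gt_d9
    linarith
  have h4 := Real.log_le_log (Real.exp_pos _) h3
  rw [Real.log_exp, Real.log_mul (by positivity) (by positivity), Real.log_pow,
    Real.log_rpow (by norm_num)] at h4
  push_cast at h4
  -- `X log 2 ≤ (6 q + 4) ℓ log 2 + C √n`
  have hCabs : C * Real.sqrt n ≤ |C| * Real.sqrt n := by
    gcongr
    exact le_abs_self C
  have h5 : X ≤ (6 * q + 5) * ℓ + 2 * |C| * Real.sqrt n := by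
    have h6 : X * Real.log 2 ≤ (6 * q + 5) * ℓ * Real.log 2 + |C| * Real.sqrt n := by linarith
    have h7 : |C| * Real.sqrt n ≤ 2 * |C| * Real.sqrt n * Real.log 2 := by
      have : 0 ≤ |C| * Real.sqrt n := by positivity
      nlinarith
    have h8 : X * Real.log 2 ≤ ((6 * q + 5) * ℓ + 2 * |C| * Real.sqrt n) * Real.log 2 := by
      linarith
    exact le_of_mul_le_mul_right h8 (by linarith)
  by_contra hcon
  push Not at hcon
  have h9 : (ℓ : ℝ) ^ (d + 1) < Real.sqrt n := by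
    refine hcon.trans_le ?_
    have : min 1 (1 / (M * E)) * Real.sqrt n ≤ 1 * Real.sqrt n := by
      gcongr
      exact min_le_left _ _
    linarith
  have h10 : (ℓ : ℝ) ≤ (ℓ : ℝ) ^ (d + 1) := le_self_pow₀ hℓ1 (by omega)
  have h11 : X ≤ (E - 1) * Real.sqrt n := by
    have h12 : (6 * q + 5) * (ℓ : ℝ) ≤ (6 * q + 5) * Real.sqrt n := by
      gcongr
      linarith
    rw [hE]
    linarith
  have h13 : (ℓ : ℝ) ^ (d + 1) < 1 / (M * E) * Real.sqrt n := by
    refine hcon.trans_le ?_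
    gcongr
    exact min_le_right _ _
  rw [hXM, div_le_iff₀ (by positivity)] at h11
  have h14 : (E - 1) * Real.sqrt n * (M * (ℓ : ℝ) ^ (d + 1)) ≤
      E * Real.sqrt n * (M * (1 / (M * E) * Real.sqrt n)) := by
    gcongr
    linarith
  have h15 : E * Real.sqrt n * (M * (1 / (M * E) * Real.sqrt n)) = n := by
    calc _ = Real.sqrt n * Real.sqrt n := by field_simp
      _ = n := hsq
  have h16 : (E - 1) * Real.sqrt n * (M * (ℓ : ℝ) ^ (d + 1)) <
      E * Real.sqrt n * (M * (1 / (M * E) * Real.sqrt n)) := by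
    have h17 : M * (ℓ : ℝ) ^ (d + 1) < M * (1 / (M * E) * Real.sqrt n) :=
      mul_lt_mul_of_pos_left h13 hM0
    have h18 : 0 ≤ (E - 1) * Real.sqrt n := by
      have : 0 ≤ E - 1 := by rw [hE]; linarith [abs_nonneg C, Nat.cast_nonneg (α := ℝ) q]
      positivity
    have h19 : 0 < M * (1 / (M * E) * Real.sqrt n) := by positivity
    have h20 : (E - 1) * Real.sqrt n < E * Real.sqrt n := by
      have : 0 < Real.sqrt n := by linarith
      nlinarith
    exact mul_lt_mul'' h20 h17 h18 (by positivity)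
  linarith

/-- sets with `r_3(b ^ n)` elements are large -/
theorem behrend {b n : ℕ} (hb : 3 ≤ b) :
    (b : ℝ) ^ n * Real.exp (-(4 * Real.sqrt (Real.log b) * Real.sqrt n)) ≤
      rothNumberNat (b ^ n) := by
  have hbr : (3 : ℝ) ≤ b := by exact_mod_cast hb
  have hlog : 0 < Real.log b := Real.log_pos (by linarith)
  have h1 := Behrend.roth_lower_bound (N := b ^ n)
  refine le_trans (le_of_eq ?_) h1
  push_cast
  rw [Real.log_pow, Real.sqrt_mul (by positivity), neg_mul]
  congr 3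
  ring

theorem relative {b n m w ℓ d r : ℕ} (hb : 1 ≤ b) (hw : 1 ≤ w) (hℓ : 1 ≤ ℓ) (hm : 0 < m)
    (F A : Finset ℕ) (hF : Decided b w ℓ d n F)
    (hr : ∀ c j : ℕ, ∀ B : Finset ℕ, (∀ s ∈ B, s < b ^ m) → (∀ s ∈ B, c + b ^ (j * m) * s ∈ A) →
      B.card ≤ r) {ε : ℝ} (hε : 0 < ε) :
    ((A ∩ F).card : ℝ) ≤ (r / (b : ℝ) ^ m + ε) * F.card + m * ((b : ℝ) ^ n *
      (2 : ℝ) ^ (2 * ℓ + 4 - ε * (n / m : ℕ) / ((d + 1 : ℕ) * Y347.CO.KK (d + 1) w ℓ))) := by
  classical
  have : NeZero b := ⟨by omega⟩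
  obtain ⟨C, o, hs, hd, hC⟩ := hF
  have hword : ∀ x : Fin n → ZMod b, (fun i : Fin n => nm x / b ^ (i : ℕ) % b) =
      fun i => (x i).val := fun x => funext fun i => nm_digit x i
  have hFn : ∀ a ∈ F, a < b ^ n := fun a ha => ((hC a).1 ha).1
  have h := rel_add (comap ZMod.val C) hℓ hw hs hd o (wd b n F) (by
    intro x
    have h2 := hC (nm x)
    rw [hword x] at h2
    rw [mem_wd, h2]
    constructor
    · exact fun h => h.2
    · exact fun h => ⟨nm_lt x, h⟩) (wd b n A) hm r (by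
    intro j hj
    refine slice_card hm j r (wd b n A) ?_
    intro z₀ h0
    have h3 := hr (nm z₀) j
      ((univ.filter fun t : Fin m → ZMod b => z₀ + ext n hm j t ∈ wd b n A).image nm) (by
        intro s hs
        obtain ⟨t, -, rfl⟩ := mem_image.1 hs
        exact nm_lt t) (by
        intro s hs
        obtain ⟨t, ht, rfl⟩ := mem_image.1 hs
        have h4 := mem_wd.1 (mem_filter.1 ht).2
        rwa [nm_block hm hj h0] at h4)
    rwa [card_image_of_injective _ nm_injective] at h3) hε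
  rw [ZMod.card] at h
  have e1 : wd b n A ∩ wd b n F = wd b n (A ∩ F) := by
    ext x
    rw [mem_inter, mem_wd, mem_wd, mem_wd, mem_inter]
  rw [e1, card_wd (A := A ∩ F) fun a ha => hFn a (mem_inter.1 ha).2, card_wd hFn] at h
  exact h

theorem three_slice {b m : ℕ} (hb : 1 ≤ b) {A : Finset ℕ} (hA : ThreeAPFree (A : Set ℕ)) (c j : ℕ)
    (B : Finset ℕ) (hB : ∀ s ∈ B, s < b ^ m) (h : ∀ s ∈ B, c + b ^ (j * m) * s ∈ A) :
    B.card ≤ rothNumberNat (b ^ m) := by
  refine ThreeAPFree.le_rothNumberNat B ?_ hB rfl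
  intro x hx y hy z hz hxyz
  have hpos : 0 < b ^ (j * m) := Nat.pow_pos (by omega)
  have h1 := hA (mem_coe.2 (h x (mem_coe.1 hx))) (mem_coe.2 (h y (mem_coe.1 hy)))
    (mem_coe.2 (h z (mem_coe.1 hz))) (by
      have : b ^ (j * m) * x + b ^ (j * m) * z = b ^ (j * m) * y + b ^ (j * m) * y := by
        rw [← Nat.mul_add, ← Nat.mul_add, hxyz]
      omega)
  exact Nat.eq_of_mul_eq_mul_left hpos (by omega)

theorem card_eq {b m : ℕ} [NeZero b] (A : Finset (Fin m → ZMod b)) :
    (A.card : ℝ) = dens (A : Set (Fin m → ZMod b)) * (b : ℝ) ^ m := by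
  classical
  unfold dens
  rw [av_eq_sum]
  have h1 : ∑ x, ind (A : Set (Fin m → ZMod b)) x = A.card := by
    have : ∀ x, ind (A : Set (Fin m → ZMod b)) x = if x ∈ A then 1 else 0 := by
      intro x
      by_cases hx : x ∈ A <;> simp [ind, hx]
    simp [this]
  have h2 : (Fintype.card (Fin m → ZMod b) : ℝ) = (b : ℝ) ^ m := by
    rw [Fintype.card_fun, Fintype.card_fin, ZMod.card]
    push_cast
    rfl
  have hp : (0 : ℝ) < b := by exact_mod_cast NeZero.pos b
  rw [h1, h2]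
  field_simp

theorem line_slice {k b m : ℕ} (hk : 2 ≤ k) (hkb : k ≤ b) {A : Finset ℕ}
    (hA : BinaryAPFree k b A) (c j : ℕ) [NeZero b]
    (B : Finset ℕ) (h : ∀ s ∈ B, c + b ^ (j * m) * s ∈ A) :
    LineFree (wd b m B : Set (Fin m → ZMod b)) := by
  classical
  intro u hu
  obtain ⟨i0, hi0⟩ := hu
  by_contra hcon
  push Not at hcon
  have hb2 : 2 ≤ b := hk.trans hkb
  obtain ⟨W, hW⟩ : ∃ W : Finset (Fin m), W = univ.filter fun i => u i = none := ⟨_, rfl⟩
  have hWi : i0 ∈ W := by rw [hW]; simp [hi0]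
  obtain ⟨D, hD⟩ : ∃ D : ℕ, D = ∑ i ∈ W, b ^ (i : ℕ) := ⟨_, rfl⟩
  have hDpos : 0 < D := by
    rw [hD]
    exact sum_pos (fun v _ => Nat.pow_pos (by omega)) ⟨i0, hWi⟩
  have hpos : 0 < b ^ (j * m) := Nat.pow_pos (by omega)
  have hpt : ∀ i : ℕ, i < b → nm (pt u (i : ZMod b)) = nm (pt u 0) + i * D := by
    intro i hi
    rw [hD, ← nm_add (pt u 0) W i]
    · congr 1
      funext v
      by_cases hv : v ∈ W
      · have hv' : u v = none := by rw [hW] at hv; simpa using hv
        rw [if_pos hv]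
        simp [pt, hv']
      · have hv' : u v ≠ none := by
          intro hh
          apply hv
          rw [hW]
          simp [hh]
        rw [if_neg hv]
        obtain ⟨a, ha⟩ := Option.ne_none_iff_exists'.1 hv'
        simp [pt, ha]
    · intro v hv
      have hv' : u v = none := by rw [hW] at hv; simpa using hv
      have : (pt u (0 : ZMod b) v).val = 0 := by simp [pt, hv']
      rw [this]
      omega
  refine hA (c + b ^ (j * m) * nm (pt u 0)) (b ^ (j * m) * D) (Nat.mul_pos hpos hDpos) ?_ ?_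
  · intro i
    rcases Nat.lt_or_ge i (j * m) with hi | hi
    · have e : b ^ (j * m) * D = b ^ i * (b * (b ^ (j * m - i - 1) * D)) := by
        have : j * m = i + (1 + (j * m - i - 1)) := by omega
        conv_lhs => rw [this, pow_add, pow_add, pow_one]
        ring
      rw [e, Nat.mul_div_cancel_left _ (Nat.pow_pos (by omega)), Nat.mul_mod_right]
      exact Nat.zero_le _
    · obtain ⟨i', rfl⟩ : ∃ i', i = j * m + i' := ⟨i - j * m, by omega⟩
      rw [pow_add, Nat.mul_div_mul_left _ _ hpos, hD]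
      exact digits_le_one hb2 W i'
  · intro i hi
    have h1 := hcon ((i : ℕ) : ZMod b)
    have h2 := mem_wd.1 (mem_coe.1 h1)
    rw [hpt i (by omega)] at h2
    have h3 := h _ h2
    have e : c + b ^ (j * m) * (nm (pt u 0) + i * D) =
        c + b ^ (j * m) * nm (pt u 0) + i * (b ^ (j * m) * D) := by ring
    rwa [e] at h3

theorem relative_c {b : ℕ} (hb : 2 ≤ b) (δ : ℝ) (hδ : 0 < δ) :
    ∃ c : ℝ, 0 < c ∧ ∀ k n w ℓ d : ℕ, 2 ≤ k → k ≤ b → 1 ≤ w → 1 ≤ ℓ → ∀ F A : Finset ℕ,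
      Decided b w ℓ d n F → BinaryAPFree k b A →
      ((A ∩ F).card : ℝ) ≤ δ * F.card + (b : ℝ) ^ n *
        (2 : ℝ) ^ (2 * ℓ + 1 / c - c * n / ((d + 1 : ℕ) * Y347.CO.KK (d + 1) w ℓ)) := by
  classical
  have : NeZero b := ⟨by omega⟩
  obtain ⟨N, hN⟩ := density_hales_jewett (ZMod b) (δ / 2) (half_pos hδ)
  obtain ⟨m, hmdef⟩ : ∃ m : ℕ, m = max N 1 := ⟨_, rfl⟩
  have hm1 : 1 ≤ m := by rw [hmdef]; exact le_max_right _ _
  have hmN : N ≤ m := by rw [hmdef]; exact le_max_left _ _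
  obtain ⟨c, hc0, hcc⟩ := Y347.CO.num_c m hm1 m (δ / 2) (by exact_mod_cast hm1) (half_pos hδ)
  refine ⟨c, hc0, fun k n w ℓ d hk hkb hw hℓ F A hF hA => ?_⟩
  have hb0 : (0 : ℝ) < (b : ℝ) := by exact_mod_cast (by omega : 0 < b)
  have hX : (1 : ℝ) ≤ ((d + 1 : ℕ) : ℝ) * Y347.CO.KK (d + 1) w ℓ :=
    Y347.CO.one_le_dKK (Nat.succ_pos d) hw hℓ
  obtain ⟨h1, h2⟩ := hcc n (((d + 1 : ℕ) : ℝ) * Y347.CO.KK (d + 1) w ℓ) (2 * ℓ) hX (by positivity)
  have hbn : (0 : ℝ) < (b : ℝ) ^ n := by positivity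
  rcases le_or_gt m n with hmn | hnm
  · have h3 := h1 hmn
    have h4 := relative (r := ⌊δ / 2 * (b : ℝ) ^ m⌋₊) (by omega) hw hℓ hm1 F A hF (by
        intro c j B hB hBA
        apply Nat.le_floor
        have h5 := hN (Fin m) (by rw [Fintype.card_fin]; exact hmN) (wd b m B : Set _)
          (line_slice hk hkb hA c j B hBA)
        rw [← card_wd hB, card_eq]
        exact mul_le_mul_of_nonneg_right h5.le (by positivity)) (half_pos hδ)
    have h6 : ((⌊δ / 2 * (b : ℝ) ^ m⌋₊ : ℕ) : ℝ) / (b : ℝ) ^ m ≤ δ / 2 := by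
      rw [div_le_iff₀ (by positivity)]
      exact Nat.floor_le (by positivity)
    have h7 : (((⌊δ / 2 * (b : ℝ) ^ m⌋₊ : ℕ) : ℝ) / (b : ℝ) ^ m + δ / 2) * (F.card : ℝ) ≤
        δ * F.card := mul_le_mul_of_nonneg_right (by linarith) (Nat.cast_nonneg _)
    have h8 := mul_le_mul_of_nonneg_left h3 hbn.le
    have e : (m : ℝ) * ((b : ℝ) ^ n * (2 : ℝ) ^ (2 * ℓ + 4 - δ / 2 * (n / m : ℕ) /
        ((d + 1 : ℕ) * Y347.CO.KK (d + 1) w ℓ))) = (b : ℝ) ^ n * (m * (2 : ℝ) ^ (2 * ℓ + 4 -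
        δ / 2 * (n / m : ℕ) / ((d + 1 : ℕ) * Y347.CO.KK (d + 1) w ℓ))) := by ring
    rw [e] at h4
    linarith
  · have h3 := h2 hnm
    have h4 := mul_le_mul_of_nonneg_left h3 hbn.le
    have h5 : ((A ∩ F).card : ℝ) ≤ (b : ℝ) ^ n := by
      obtain ⟨C, o, hs, hd, hC⟩ := hF
      have h6 : A ∩ F ⊆ range (b ^ n) := by
        intro a ha
        rw [mem_range]
        exact ((hC a).1 (mem_inter.1 ha).2).1
      have h7 := card_le_card h6
      rw [card_range] at h7
      exact_mod_cast h7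
    have h6 : 0 ≤ δ * (F.card : ℝ) := by positivity
    linarith

/-- **Theorem.** Let `w, ℓ ≥ 1`.
(1) Let `2 ≤ k ≤ b`. If `A ⊆ [0, b ^ n)` contains no `k`-term progression with a positive common
difference all of whose digits in base `b` are `0` or `1`, and `A` is the support of a polynomial of
degree at most `q` over a field in `T` sets decided by circuits of depth `d` and size `2 ^ ℓ` on the
`n` digits, then `|A| ≤ 4 (4 ^ (k q ℓ) + k T) b ^ n 2 ^ (- n / (2 (k q (d + 1) + 1) k loss))`.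
(2) For sets `F_1, …, F_T` decided by such circuits this holds, with `q = 1`, if `A` is the union of
the sets, more generally if `A` is the set of the integers in `[0, b ^ n)` whose number of sets
`F_i ∋ a` is not `s`; and, with `q = s - 1`, if `A` is the set of the integers in `[0, b ^ n)` for
which this number is `≡ t` modulo a prime `s`.
(3) Let `b ≥ 3`. For all `w, d, q, C` there is `δ > 0` such that, if `A ⊆ [0, b ^ n)` has no
three-term progression, `|A| ≥ b ^ n exp (- C √n)` or `|A| = r_3(b ^ n)`, and `A` is the support of a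
polynomial of degree at most `q` in `T ≤ 2 ^ ℓ` such sets, then `ℓ ^ (d + 1) ≥ δ √n`.
(4) Let `b, m ≥ 1`. For every `F ⊆ [0, b ^ n)` decided by such a circuit, every finite `A` without
three-term progressions and every `ε > 0`,
`|A ∩ F| ≤ (r_3(b ^ m) / b ^ m + ε) |F| + m b ^ n 2 ^ (2 ℓ + 4 - ε ⌊n / m⌋ / ((d + 1) loss))`.
(5) For all `b ≥ 2` and `δ > 0` there is `c > 0` such that for all `k ≤ b`, `n, w, ℓ, d`, all such
`F ⊆ [0, b ^ n)` and all finite `A` as in (1) (no condition on circuits),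
`|A ∩ F| ≤ δ |F| + b ^ n 2 ^ (2 ℓ + 1 / c - c n / ((d + 1) loss))`. -/
theorem result :
    (∀ k b n w ℓ d T q : ℕ, 2 ≤ k → k ≤ b → 1 ≤ w → 1 ≤ ℓ → ∀ A : Finset ℕ, BinaryAPFree k b A →
      SupportOf b w ℓ d n T q A → (A.card : ℝ) ≤ bound k b w ℓ d n T q) ∧
    (∀ b n w ℓ d T : ℕ, ∀ A : Finset ℕ, ∀ F : Fin T → Finset ℕ, (∀ i, Decided b w ℓ d n (F i)) →
        ((∀ a, a ∈ A ↔ ∃ i, a ∈ F i) → SupportOf b w ℓ d n T 1 A) ∧
        (∀ s, (∀ a, a ∈ A ↔ a < b ^ n ∧ count F a ≠ s) → SupportOf b w ℓ d n T 1 A) ∧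
        (∀ t s : ℕ, s.Prime → (∀ a, a ∈ A ↔ a < b ^ n ∧ count F a ≡ t [MOD s]) →
          SupportOf b w ℓ d n T (s - 1) A)) ∧
    (∀ b w d q : ℕ, 3 ≤ b → 1 ≤ w → ∀ C : ℝ, ∃ δ : ℝ, 0 < δ ∧ ∀ (n ℓ T : ℕ) (A : Finset ℕ),
      1 ≤ n → 1 ≤ ℓ → T ≤ 2 ^ ℓ → ThreeAPFree (A : Set ℕ) → SupportOf b w ℓ d n T q A →
      ((b : ℝ) ^ n * Real.exp (-(C * Real.sqrt n)) ≤ A.card ∨ A.card = rothNumberNat (b ^ n)) →
      δ * Real.sqrt n ≤ (ℓ : ℝ) ^ (d + 1)) ∧
    (∀ b n m w ℓ d : ℕ, 1 ≤ b → 1 ≤ w → 1 ≤ ℓ → 1 ≤ m → ∀ F A : Finset ℕ,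
      Decided b w ℓ d n F → ThreeAPFree (A : Set ℕ) → ∀ ε : ℝ, 0 < ε →
        ((A ∩ F).card : ℝ) ≤ (rothNumberNat (b ^ m) / (b : ℝ) ^ m + ε) * F.card +
          m * (b : ℝ) ^ n *
            (2 : ℝ) ^ (2 * ℓ + 4 - ε * (n / m : ℕ) / ((d + 1) * loss w ℓ d) : ℝ)) ∧
    (∀ b : ℕ, 2 ≤ b → ∀ δ : ℝ, 0 < δ → ∃ c : ℝ, 0 < c ∧ ∀ k n w ℓ d : ℕ, 2 ≤ k → k ≤ b →
      1 ≤ w → 1 ≤ ℓ → ∀ F A : Finset ℕ, Decided b w ℓ d n F → BinaryAPFree k b A →
        ((A ∩ F).card : ℝ) ≤ δ * F.card +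
          (b : ℝ) ^ n * (2 : ℝ) ^ (2 * ℓ + 1 / c - c * n / ((d + 1) * loss w ℓ d) : ℝ)) := by
  have hloss : ∀ w ℓ d : ℕ, ((d : ℝ) + 1) * ((loss w ℓ d : ℕ) : ℝ) =
      ((d + 1 : ℕ) : ℝ) * Y347.CO.KK (d + 1) w ℓ := by
    intro w ℓ d
    rw [loss, Y347.CO.KK, Nat.cast_add, Nat.cast_one]
  refine ⟨fun k b n w ℓ d T q hk hkb hw hℓ A hA h => main hk hkb hw hℓ A hA h, ?_, ?_, ?_, ?_⟩
  · intro b n w ℓ d T A F hF
    refine ⟨fun h => support_ne A F hF 0 fun a => ?_, fun s h => support_ne A F hF s h,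
      fun t s hs h => support_mod A F hF t s hs h⟩
    rw [h, count, card_ne_zero, filter_nonempty_iff]
    constructor
    · rintro ⟨i, hi⟩
      obtain ⟨C, o, -, -, hC⟩ := hF i
      exact ⟨((hC a).1 hi).1, i, mem_univ _, hi⟩
    · rintro ⟨-, i, -, hi⟩
      exact ⟨i, hi⟩
  · intro b w d q hb hw C
    obtain ⟨δ, hδ, h⟩ := large b w d q hb hw (max C (4 * Real.sqrt (Real.log b)))
    refine ⟨δ, hδ, fun n ℓ T A hn hℓ hT hfree hsup hlow => ?_⟩
    refine h n ℓ T A hn hℓ hT hfree hsup ?_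
    rcases hlow with hlow | hlow
    · refine le_trans ?_ hlow
      gcongr
      exact le_max_left _ _
    · rw [hlow]
      refine le_trans ?_ (behrend hb)
      gcongr
      exact le_max_right _ _
  · intro b n m w ℓ d hb hw hℓ hm F A hF hA ε hε
    rw [hloss, mul_assoc]
    exact relative hb hw hℓ hm F A hF (fun c j B hB h => three_slice hb hA c j B hB h) hε
  · intro b hb δ hδ
    obtain ⟨c, hc, h⟩ := relative_c hb δ hδ
    refine ⟨c, hc, fun k n w ℓ d hk hkb hw hℓ F A hF hA => ?_⟩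
    rw [hloss]
    exact h k n w ℓ d hk hkb hw hℓ F A hF hA

end Pool.Agent.Results.MP_0f71ae_nt.DigitCircuits
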