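import Pool.Agent.L5helper7.DS.Low
import Pool.Agent.L5helper7.D3.Sums
import Pool.Agent.L5helper15.D2.Two

/-!
# Progression-free sets of integers that are invariant under permutations of the digits: the exact growth rate, and the
exact maximal size in the bases 2 and 3

For every base `b ≥ 2` let `rsym b n` be the largest size of a set `A` of integers `0 ≤ x < b ^ n` without three-term
progressions which is invariant under all permutations of the `n` base-`b` digits, and `h = ⌈b / 2⌉ = (b + 1) / 2`
(integer part). Then `rsym b n = h ^ n` up to factors which are polynomial in `n`; with `N = b ^ n` this is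
`N ^ (log h / log b)` up to powers of `log N`. Moreover every element of every such set has all but boundedly many of its
digits in a set of `h` digits. Behrend's sets (digits below `h`, and prescribed sum of the squares of the digits) are
such sets: for every fixed base they are optimal, up to powers of `log N`, among all sets defined by symmetric conditions
on the digits.

The analogue in `F_p ^ n` is a starting result (MP_b30443_co, SymmetricSets). For integers the carries in
`x + z = 2 y` have to be dealt with.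

Proof. Let `D` be a set of more than `h` digits. The carries in the computation of `x + z - 2 y` are `-1`, `0`, `1`, and the
transitions `x_i + z_i + e = 2 y_i + b e'` with digits in `D` form a directed multigraph on these three states. By the
lemma of Farkas, and a combinatorial analysis of the potentials (minimum of the digit potential, maximum of the carry
potential, a counting argument for the case that only the carries `1` and `-1` are maximal), there is a circulation in
which all the letters are used equally often by `x`, `y` and `z`, and whose support is connected and contains the state `0`.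
A closed walk through it is a nontrivial solution of `x + z = 2 y` in three words which are rearrangements of each other.
If all the digits of `D` occur often in an element of a symmetric set, the set contains this solution.

Base 3. Here the maximal size is `2 ^ n` exactly, for all `n ≥ 200`: the integers with the digits `0` and `1` only
(Szekeres) are optimal among the digit-symmetric sets. Explicit walks in the carry graph show that a word with all three
digits gives a progression (`102, 120, 201`), so that only the types `a_i` (digits 0, 1; `i` ones), `c_i` (digits 1, 2;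
`i` twos) and `e_i` (digits 0, 2; `i` twos) are left, and that the following combinations give progressions: `a_i, e_i`
(`w, 2 w, 3 w`); `c_i, e_i`; `a_i, c_(n-i)`; and, for certain ranges of the indices, `a_j, e_m` for even `j`; `c_j, e_m`
for even `n - j`; `a_i, c_j, e_m` for `i + j ≡ n mod 2`; `e_m, e_m', a_(m+m')`; `e_m, e_m', c_(m+m'-n)`;
`a_(m-1), a_(m+1), e_m`. There are `binom n i` words of each type with index `i`. At most three of the six types with
the indices `i`, `n - i` are in a progression-free symmetric set `S`; if there are three for some `i < n / 2`, then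
`3 i + 2 ≤ n` and at some level `j`, `i < j < n / 2`, at most one of the six types is in `S`. As `binom n j` is at least the
sum of the `binom n k` with `1 ≤ k ≤ i`, `S` has at most `2 ^ n` elements.
-/

set_option autoImplicit false

namespace Pool.Agent.Results.MP_0f71ae_nt.DigitSymmetric

open Finset Equiv Filter Topology
open Pool.Agent.L5helper7.DS

/-- the digit number `i` of `x` in base `b` -/
def digit (b i x : ℕ) : ℕ := x / b ^ i % b

/-- `x < b ^ n` with the `n` base-`b` digits permuted by `σ` -/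
def rearrange (b n : ℕ) (σ : Perm (Fin n)) (x : ℕ) : ℕ := ∑ i : Fin n, digit b (σ i) x * b ^ (i : ℕ)

/-- `A` is invariant under all permutations of the `n` base-`b` digits -/
def Symmetric (b n : ℕ) (A : Finset ℕ) : Prop := ∀ σ : Perm (Fin n), ∀ x ∈ A, rearrange b n σ x ∈ A

/-- `A` contains no nontrivial three-term progression `x, y, z` -/
def APFree (A : Finset ℕ) : Prop := ∀ x ∈ A, ∀ y ∈ A, ∀ z ∈ A, x + z = 2 * y → x = z

/-- the largest size of a digit-symmetric subset of `[0, b ^ n)` without nontrivial three-term progressions -/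
noncomputable def rsym (b n : ℕ) : ℕ :=
  sSup {t : ℕ | ∃ A : Finset ℕ, A ⊆ range (b ^ n) ∧ APFree A ∧ Symmetric b n A ∧ A.card = t}

lemma val_eq {b n : ℕ} (u : Fin n → Fin b) : val u = (finFunctionFinEquiv u : ℕ) := rfl

lemma digit_val {b n : ℕ} (u : Fin n → Fin b) (i : Fin n) : digit b i (val u) = u i := by
  have h : finFunctionFinEquiv.symm (finFunctionFinEquiv u) i = u i := by rw [Equiv.symm_apply_apply]
  rw [← h, val_eq]
  rfl

lemma val_inj {b n : ℕ} : Function.Injective (val : (Fin n → Fin b) → ℕ) := by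
  intro u v h
  rw [val_eq, val_eq] at h
  exact finFunctionFinEquiv.injective (Fin.ext h)

lemma val_lt {b n : ℕ} (u : Fin n → Fin b) : val u < b ^ n := by
  rw [val_eq]
  exact (finFunctionFinEquiv u).2

lemma exists_val {b n x : ℕ} (hx : x < b ^ n) : ∃ u : Fin n → Fin b, val u = x := by
  refine ⟨finFunctionFinEquiv.symm ⟨x, hx⟩, ?_⟩
  rw [val_eq, Equiv.apply_symm_apply]

lemma rearrange_val {b n : ℕ} (σ : Perm (Fin n)) (u : Fin n → Fin b) :
    rearrange b n σ (val u) = val (fun i => u (σ i)) := by
  unfold rearrange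
  simp only [digit_val]
  rfl

open Classical in
/-- the words of the elements of `A` -/
noncomputable def words (b n : ℕ) (A : Finset ℕ) : Finset (Fin n → Fin b) := univ.filter (fun u => val u ∈ A)

lemma words_spec {b n : ℕ} {A : Finset ℕ} (hA : A ⊆ range (b ^ n)) (hF : APFree A) (hS : Symmetric b n A) :
    FreeW (words b n A) ∧ SymW (words b n A) ∧ (words b n A).card = A.card := by
  classical
  refine ⟨?_, ?_, ?_⟩
  · intro u hu v hv w hw h
    unfold words at hu hv hw
    rw [mem_filter] at hu hv hw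
    exact val_inj (hF _ hu.2 _ hv.2 _ hw.2 h)
  · intro σ u hu
    unfold words at hu ⊢
    rw [mem_filter] at hu ⊢
    refine ⟨mem_univ _, ?_⟩
    rw [← rearrange_val]
    exact hS σ _ hu.2
  · have h1 : (words b n A).image Pool.Agent.L5helper7.DS.val = A := by
      ext x
      rw [mem_image]
      constructor
      · rintro ⟨u, hu, rfl⟩
        unfold words at hu
        rw [mem_filter] at hu
        exact hu.2
      · intro hx
        obtain ⟨u, hu⟩ := exists_val (mem_range.1 (hA hx))
        refine ⟨u, ?_, hu⟩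
        unfold words
        rw [mem_filter, hu]
        exact ⟨mem_univ _, hx⟩
    rw [← h1, card_image_of_injective _ val_inj, h1]

lemma bdd (b n : ℕ) :
    BddAbove {t : ℕ | ∃ A : Finset ℕ, A ⊆ range (b ^ n) ∧ APFree A ∧ Symmetric b n A ∧ A.card = t} := by
  refine ⟨b ^ n, ?_⟩
  rintro t ⟨A, hA, _, _, rfl⟩
  have := card_le_card hA
  rwa [card_range] at this

/-- the growth for every base -/
theorem growth (b : ℕ) (hb : 2 ≤ b) :
    (∃ C : ℕ, ∀ n : ℕ, 1 ≤ n →
      (∀ A : Finset ℕ, A ⊆ range (b ^ n) → APFree A → Symmetric b n A → ∀ x ∈ A,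
        ∃ V : Finset ℕ, V.card = (b + 1) / 2 ∧ V ⊆ range b ∧
          ((range n).filter (fun i => digit b i x ∉ V)).card ≤ C) ∧
      (rsym b n : ℝ) ≤ C * (n : ℝ) ^ C * (((b + 1) / 2 : ℕ) : ℝ) ^ n ∧
      (((b + 1) / 2 : ℕ) : ℝ) ^ n ≤ C * n * (rsym b n : ℝ)) ∧
    Tendsto (fun n : ℕ => (rsym b n : ℝ) ^ (1 / (n : ℝ))) atTop (𝓝 (((b + 1) / 2 : ℕ) : ℝ)) := by
  classical
  obtain ⟨h, hh⟩ : ∃ h, h = (b + 1) / 2 := ⟨_, rfl⟩
  have hh1 : 1 ≤ h := by omega
  obtain ⟨K, hK⟩ := cover hb
  obtain ⟨C, hC⟩ := upper hb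
  have hupper : ∀ n : ℕ, 1 ≤ n → rsym b n ≤ C * n ^ C * h ^ n := by
    intro n hn
    apply csSup_le'
    rintro t ⟨A, hA, hF, hS, rfl⟩
    obtain ⟨h1, h2, h3⟩ := words_spec hA hF hS
    rw [← h3, hh]
    exact hC n _ hn h1 h2
  have hlower : ∀ n : ℕ, h ^ n ≤ (n * h ^ 2 + 1) * rsym b n := by
    intro n
    obtain ⟨B, hB, hS, hc⟩ := lower hb n
    rw [← hh] at hc
    refine hc.trans (Nat.mul_le_mul_left _ ?_)
    refine le_csSup (bdd b n) ⟨B.image Pool.Agent.L5helper7.DS.val, ?_, ?_, ?_, card_image_of_injective _ val_inj⟩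
    · intro x hx
      rw [mem_image] at hx
      obtain ⟨u, -, rfl⟩ := hx
      exact mem_range.2 (val_lt u)
    · intro x hx y hy z hz hxyz
      rw [mem_image] at hx hy hz
      obtain ⟨u, hu, rfl⟩ := hx
      obtain ⟨v, hv, rfl⟩ := hy
      obtain ⟨w, hw, rfl⟩ := hz
      rw [hB u hu v hv w hw hxyz]
    · intro σ x hx
      rw [mem_image] at hx
      obtain ⟨u, hu, rfl⟩ := hx
      rw [rearrange_val]
      exact mem_image_of_mem _ (hS σ u hu)
  set E : ℕ := C + h ^ 2 + 1 + b * K with hE
  have hU : ∀ n : ℕ, 1 ≤ n → (rsym b n : ℝ) ≤ E * (n : ℝ) ^ E * (h : ℝ) ^ n := by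
    intro n hn
    have h1 : (rsym b n : ℝ) ≤ C * (n : ℝ) ^ C * (h : ℝ) ^ n := by exact_mod_cast hupper n hn
    have hnR : (1 : ℝ) ≤ n := by exact_mod_cast hn
    refine h1.trans ?_
    have h2 : (C : ℝ) ≤ (E : ℝ) := by
      have : C ≤ E := by omega
      exact_mod_cast this
    have h3 : (n : ℝ) ^ C ≤ (n : ℝ) ^ E := pow_le_pow_right₀ hnR (by omega)
    gcongr
  have hL : ∀ n : ℕ, 1 ≤ n → (h : ℝ) ^ n ≤ E * n * (rsym b n : ℝ) := by
    intro n hn
    have h1 : (h : ℝ) ^ n ≤ (n * (h : ℝ) ^ 2 + 1) * rsym b n := by exact_mod_cast hlower n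
    have hnR : (1 : ℝ) ≤ n := by exact_mod_cast hn
    refine h1.trans ?_
    have h2 : (n * (h : ℝ) ^ 2 + 1) ≤ (E : ℝ) * n := by
      rw [hE]
      push_cast
      have : (0 : ℝ) ≤ C := Nat.cast_nonneg C
      have : (0 : ℝ) ≤ (b : ℝ) * K := by positivity
      nlinarith
    gcongr
  rw [← hh]
  refine ⟨⟨E, fun n hn => ⟨?_, hU n hn, hL n hn⟩⟩, ?_⟩
  · intro A hA hF hS x hx
    obtain ⟨h1, h2, h3⟩ := words_spec hA hF hS
    obtain ⟨u, hu⟩ := exists_val (mem_range.1 (hA hx))
    have huw : u ∈ words b n A := by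
      unfold words
      rw [mem_filter, hu]
      exact ⟨mem_univ _, hx⟩
    obtain ⟨V, hV1, hV2⟩ := hK n _ h1 h2 u huw
    refine ⟨V.map Fin.valEmbedding, by rw [card_map, hV1, hh], ?_, ?_⟩
    · intro v hv
      rw [Finset.mem_map] at hv
      obtain ⟨a, -, rfl⟩ := hv
      exact mem_range.2 a.2
    · have e1 : (range n).filter (fun i => digit b i x ∉ V.map Fin.valEmbedding) =
          (univ.filter (fun i : Fin n => u i ∉ V)).map Fin.valEmbedding := by
        ext i
        rw [mem_filter, mem_range]
        constructor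
        · rintro ⟨hi, hd⟩
          rw [Finset.mem_map]
          refine ⟨⟨i, hi⟩, ?_, rfl⟩
          rw [mem_filter]
          refine ⟨mem_univ _, fun hcon => hd ?_⟩
          rw [Finset.mem_map]
          refine ⟨_, hcon, ?_⟩
          rw [← hu]
          exact (digit_val u ⟨i, hi⟩).symm
        · intro hi
          rw [Finset.mem_map] at hi
          obtain ⟨j, hj, rfl⟩ := hi
          rw [mem_filter] at hj
          refine ⟨j.2, fun hcon => hj.2 ?_⟩
          rw [Finset.mem_map] at hcon
          obtain ⟨a, ha, hae⟩ := hcon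
          have e2 : digit b (Fin.valEmbedding j) x = u j := by
            rw [← hu]
            exact digit_val u j
          rw [e2] at hae
          have : a = u j := Fin.ext hae
          rwa [← this]
      rw [e1, card_map]
      exact hV2.trans (by omega)
  · have hEpos : (0 : ℝ) < E := by
      have : 0 < E := by omega
      exact_mod_cast this
    have hhpos : (0 : ℝ) < h := by exact_mod_cast hh1
    have hu : Tendsto (fun n : ℕ => (n : ℝ) ^ (1 / (n : ℝ))) atTop (𝓝 1) :=
      tendsto_rpow_div.comp tendsto_natCast_atTop_atTop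
    have hc : Tendsto (fun n : ℕ => (E : ℝ) ^ (1 / (n : ℝ))) atTop (𝓝 1) := by
      have h1 : Tendsto (fun n : ℕ => (E : ℝ) ^ (1 / (n : ℝ))) atTop (𝓝 ((E : ℝ) ^ (0 : ℝ))) :=
        tendsto_const_nhds.rpow tendsto_one_div_atTop_nhds_zero_nat (Or.inl hEpos.ne')
      rwa [Real.rpow_zero] at h1
    have hup : Tendsto (fun n : ℕ => (E : ℝ) ^ (1 / (n : ℝ)) * ((n : ℝ) ^ (1 / (n : ℝ))) ^ E * h)
        atTop (𝓝 h) := by
      have := (hc.mul (hu.pow E)).mul_const (h : ℝ)
      simpa using this
    have hlo : Tendsto (fun n : ℕ => (h : ℝ) / ((E : ℝ) ^ (1 / (n : ℝ)) * (n : ℝ) ^ (1 / (n : ℝ))))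
        atTop (𝓝 h) := by
      have h1 := (tendsto_const_nhds (x := (h : ℝ)) (f := (atTop : Filter ℕ))).div
        (hc.mul hu) (by norm_num)
      rw [mul_one, div_one] at h1
      exact h1
    refine tendsto_of_tendsto_of_tendsto_of_le_of_le' hlo hup ?_ ?_
    · filter_upwards [eventually_ge_atTop 1] with n hn
      have hnR : (0 : ℝ) < n := by exact_mod_cast hn
      have hr0 : (0 : ℝ) ≤ rsym b n := Nat.cast_nonneg _
      rw [div_le_iff₀ (by positivity)]
      have h1 := Real.rpow_le_rpow (by positivity) (hL n hn) (show (0 : ℝ) ≤ 1 / (n : ℝ) by positivity)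
      rw [Real.mul_rpow (by positivity) hr0, Real.mul_rpow (by positivity) (by positivity), one_div,
        Real.pow_rpow_inv_natCast (by positivity) (by omega), ← one_div] at h1
      linarith
    · filter_upwards [eventually_ge_atTop 1] with n hn
      have hnR : (0 : ℝ) < n := by exact_mod_cast hn
      have hr0 : (0 : ℝ) ≤ rsym b n := Nat.cast_nonneg _
      have h1 := Real.rpow_le_rpow hr0 (hU n hn) (show (0 : ℝ) ≤ 1 / (n : ℝ) by positivity)
      rw [Real.mul_rpow (by positivity) (by positivity),
        Real.mul_rpow (by positivity) (by positivity)] at h1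
      have e1 : ((h : ℝ) ^ n) ^ (1 / (n : ℝ)) = h := by
        rw [one_div]
        exact Real.pow_rpow_inv_natCast (by positivity) (by omega)
      have e2 : ((n : ℝ) ^ E) ^ (1 / (n : ℝ)) = ((n : ℝ) ^ (1 / (n : ℝ))) ^ E := by
        rw [← Real.rpow_natCast, ← Real.rpow_natCast, ← Real.rpow_mul hnR.le,
          ← Real.rpow_mul hnR.le, mul_comm]
      rw [e1, e2] at h1
      exact h1

lemma rsym_lower {b n : ℕ} {B : Finset (Fin n → Fin b)} (hF : FreeW B) (hS : SymW B) : B.card ≤ rsym b n := by
  classical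
  refine le_csSup (bdd b n) ⟨B.image Pool.Agent.L5helper7.DS.val, ?_, ?_, ?_, card_image_of_injective _ val_inj⟩
  · intro x hx
    rw [mem_image] at hx
    obtain ⟨u, -, rfl⟩ := hx
    exact mem_range.2 (val_lt u)
  · intro x hx y hy z hz hxyz
    rw [mem_image] at hx hy hz
    obtain ⟨u, hu, rfl⟩ := hx
    obtain ⟨v, hv, rfl⟩ := hy
    obtain ⟨w, hw, rfl⟩ := hz
    rw [hF u hu v hv w hw hxyz]
  · intro σ x hx
    rw [mem_image] at hx
    obtain ⟨u, hu, rfl⟩ := hx
    rw [rearrange_val]
    exact mem_image_of_mem _ (hS σ u hu)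

lemma rsym_attained (b n : ℕ) : ∃ B : Finset (Fin n → Fin b), FreeW B ∧ SymW B ∧ B.card = rsym b n := by
  have hne : {t : ℕ | ∃ A : Finset ℕ, A ⊆ range (b ^ n) ∧ APFree A ∧ Symmetric b n A ∧ A.card = t}.Nonempty :=
    ⟨0, ∅, by simp, fun x hx => absurd hx (notMem_empty x), fun σ x hx => absurd hx (notMem_empty x), card_empty⟩
  obtain ⟨A, hA, hF, hS, hc⟩ := Nat.sSup_mem hne (bdd b n)
  obtain ⟨h1, h2, h3⟩ := words_spec hA hF hS
  exact ⟨words b n A, h1, h2, by rw [h3, hc]; rfl⟩

/-- base 3 -/
theorem base_three : (∀ n : ℕ, 2 ^ n ≤ rsym 3 n) ∧ (∀ n : ℕ, 200 ≤ n → rsym 3 n = 2 ^ n) := by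
  have hlo : ∀ n : ℕ, 2 ^ n ≤ rsym 3 n := by
    intro n
    obtain ⟨B, hF, hS, hc⟩ := Pool.Agent.L5helper7.D3.lower3 n
    rw [← hc]
    exact rsym_lower hF hS
  refine ⟨hlo, fun n hn => le_antisymm ?_ (hlo n)⟩
  obtain ⟨B, hF, hS, hc⟩ := rsym_attained 3 n
  rw [← hc]
  exact Pool.Agent.L5helper7.D3.exact3 hF hS hn

/-- base 2 -/
theorem base_two : ∀ n : ℕ, 2 ≤ n → rsym 2 n = n := by
  intro n hn
  refine le_antisymm ?_ ?_
  · obtain ⟨B, hF, hS, hc⟩ := rsym_attained 2 n
    rw [← hc]
    exact Pool.Agent.L5helper7.D2.exact2 hF hS hn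
  · obtain ⟨B, hF, hS, hc⟩ := Pool.Agent.L5helper7.D2.lower2 n
    calc n = B.card := hc.symm
      _ ≤ rsym 2 n := rsym_lower hF hS

/-- **The exact growth of digit-symmetric progression-free sets, and their maximal size in the bases 2 and 3.** For every base
`b ≥ 2`, with `h = (b + 1) / 2` (integer part), there is `C` such that for all `n ≥ 1`: every element of every
digit-symmetric subset of `[0, b ^ n)` without three-term progressions has all but at most `C` of its `n` digits in a set
of `h` digits; `rsym b n ≤ C n ^ C h ^ n` and `h ^ n ≤ C n rsym b n`. In particular `rsym b n ^ (1 / n)` tends to `h`.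
In the bases `2` and `3` the maximal size is known exactly: `rsym 2 n = n` for all `n ≥ 2`, and `rsym 3 n = 2 ^ n` for
all `n ≥ 200` (and `rsym 3 n ≥ 2 ^ n` for all `n`). -/
theorem result :
    (∀ b : ℕ, 2 ≤ b →
      (∃ C : ℕ, ∀ n : ℕ, 1 ≤ n →
        (∀ A : Finset ℕ, A ⊆ range (b ^ n) → APFree A → Symmetric b n A → ∀ x ∈ A,
          ∃ V : Finset ℕ, V.card = (b + 1) / 2 ∧ V ⊆ range b ∧
            ((range n).filter (fun i => digit b i x ∉ V)).card ≤ C) ∧
        (rsym b n : ℝ) ≤ C * (n : ℝ) ^ C * (((b + 1) / 2 : ℕ) : ℝ) ^ n ∧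
        (((b + 1) / 2 : ℕ) : ℝ) ^ n ≤ C * n * (rsym b n : ℝ)) ∧
      Tendsto (fun n : ℕ => (rsym b n : ℝ) ^ (1 / (n : ℝ))) atTop (𝓝 (((b + 1) / 2 : ℕ) : ℝ))) ∧
    (∀ n : ℕ, 2 ≤ n → rsym 2 n = n) ∧ (∀ n : ℕ, 2 ^ n ≤ rsym 3 n) ∧ (∀ n : ℕ, 200 ≤ n → rsym 3 n = 2 ^ n) :=
  ⟨growth, base_two, base_three⟩

end Pool.Agent.Results.MP_0f71ae_nt.DigitSymmetric
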