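import Pool.Agent.Results.MP_0f71ae_nt.DigitSymmetric
import Pool.Agent.L5helper7.DS.Rel

/-!
# Roth's theorem relative to sets of integers that are invariant under permutations of the digits

Let `b ≥ 2` and `h = (b + 1) / 2` (integer part). A set `S` of integers `0 ≤ x < b ^ n` which is invariant under all
permutations of the `n` base-`b` digits may be very sparse: it may have only `(b ^ n) ^ c` elements for some `c < 1`. We
prove that Roth's theorem holds inside `S` (subsets of `S` of positive relative density contain nontrivial three-term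
progressions) as soon as `S` has at least `(h + ε) ^ n` elements, or, more generally, as soon as every element of `S` has
more than `h` frequent digits. Here `h` is optimal: there are digit-symmetric sets with at least `h ^ n / (C n)` elements,
and with `h` frequent digits, that contain no progression at all.

The exact threshold for the existence of a progression in `S` itself is the result `DigitSymmetric`. For dense subsets the
rearrangements of a fixed finite pattern have to be found inside a dense subset of an orbit of the symmetric group; this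
is deduced from the density Hales-Jewett theorem.
-/

set_option autoImplicit false

namespace Pool.Agent.Results.MP_0f71ae_nt.RelativeRoth

open Finset Equiv Filter Topology
open Pool.Agent.L5helper7.DS
open Pool.Agent.Results.MP_0f71ae_nt.DigitSymmetric (digit rearrange Symmetric APFree val_eq digit_val val_inj val_lt
  exists_val rearrange_val)

/-- the digits `v < b` that occur at least `m` times among the `n` base-`b` digits of `x` -/
noncomputable def frequent (b n : ℕ) (m : ℝ) (x : ℕ) : Finset ℕ :=
  (range b).filter (fun v => m ≤ (((range n).filter (fun i => digit b i x = v)).card : ℝ))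

open Classical in
/-- the words of the elements of `A` -/
noncomputable def words (b n : ℕ) (A : Finset ℕ) : Finset (Fin n → Fin b) := univ.filter (fun u => val u ∈ A)

lemma mem_words {b n : ℕ} {A : Finset ℕ} {u : Fin n → Fin b} : u ∈ words b n A ↔ val u ∈ A := by
  unfold words
  rw [mem_filter]
  exact ⟨fun h => h.2, fun h => ⟨mem_univ _, h⟩⟩

lemma words_card {b n : ℕ} {A : Finset ℕ} (hA : A ⊆ range (b ^ n)) : (words b n A).card = A.card := by
  classical
  have h1 : (words b n A).image Pool.Agent.L5helper7.DS.val = A := by
    ext x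
    rw [mem_image]
    constructor
    · rintro ⟨u, hu, rfl⟩
      exact mem_words.1 hu
    · intro hx
      obtain ⟨u, hu⟩ := exists_val (mem_range.1 (hA hx))
      exact ⟨u, mem_words.2 (by rwa [hu]), hu⟩
  rw [← h1, card_image_of_injective _ val_inj, h1]

lemma words_sym {b n : ℕ} {A : Finset ℕ} (hS : Symmetric b n A) : SymW (words b n A) := by
  intro σ u hu
  rw [mem_words] at hu ⊢
  rw [← rearrange_val]
  exact hS σ _ hu

lemma words_free {b n : ℕ} {A : Finset ℕ} (hF : APFree A) : FreeW (words b n A) := by
  intro u hu v hv w hw h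
  rw [mem_words] at hu hv hw
  exact val_inj (hF _ hu _ hv _ hw h)

lemma words_mono {b n : ℕ} {A S : Finset ℕ} (h : A ⊆ S) : words b n A ⊆ words b n S := by
  intro u hu
  rw [mem_words] at hu ⊢
  exact h hu

lemma frequent_card {b n : ℕ} (m : ℝ) (u : Fin n → Fin b) :
    (frequent b n m (val u)).card = (univ.filter (fun v => m ≤ (cnt u v : ℝ))).card := by
  classical
  have h0 : ∀ v : Fin b, ((range n).filter (fun i => digit b i (val u) = v)).card = cnt u v := by
    intro v
    unfold cnt
    have e1 : (range n).filter (fun i => digit b i (val u) = v) =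
        (univ.filter (fun i : Fin n => u i = v)).map Fin.valEmbedding := by
      ext i
      rw [mem_filter, mem_range, Finset.mem_map]
      constructor
      · rintro ⟨hi, hd⟩
        refine ⟨⟨i, hi⟩, ?_, rfl⟩
        rw [mem_filter]
        refine ⟨mem_univ _, Fin.ext ?_⟩
        rw [← hd]
        exact (digit_val u ⟨i, hi⟩).symm
      · rintro ⟨j, hj, rfl⟩
        rw [mem_filter] at hj
        refine ⟨j.2, ?_⟩
        rw [← hj.2]
        exact digit_val u j
    rw [e1, card_map]
  have h1 : frequent b n m (val u) = (univ.filter (fun v : Fin b => m ≤ (cnt u v : ℝ))).map Fin.valEmbedding := by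
    ext v
    unfold frequent
    rw [mem_filter, mem_range, Finset.mem_map]
    constructor
    · rintro ⟨hv, hm⟩
      refine ⟨⟨v, hv⟩, ?_, rfl⟩
      rw [mem_filter]
      refine ⟨mem_univ _, ?_⟩
      rw [← h0]
      exact hm
    · rintro ⟨w, hw, rfl⟩
      rw [mem_filter] at hw
      refine ⟨w.2, ?_⟩
      have := hw.2
      rw [← h0] at this
      exact this
  rw [h1, card_map]

/-- **Roth's theorem relative to digit-symmetric sets, with the optimal threshold.** Let `b ≥ 2` and
`h = (b + 1) / 2` (integer part).

(1) For all `ε, δ > 0` and all large `n`: if `S ⊆ [0, b ^ n)` is invariant under permutations of the `n` digits and every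
element of `S` has more than `h` digits each of which occurs at least `ε n` times, every subset of `S` without nontrivial
three-term progressions has at most `δ |S|` elements.

(2) The same holds if `S ⊆ [0, b ^ n)` is invariant under permutations of the `n` digits and has at least `(h + ε) ^ n`
elements.

(3) There is `C` such that for all `n ≥ 1` there is a digit-symmetric subset of `[0, b ^ n)` without nontrivial three-term
progressions which has at least `h ^ n / (C n)` elements. -/
theorem result (b : ℕ) (hb : 2 ≤ b) :
    (∀ ε : ℝ, 0 < ε → ∀ δ : ℝ, 0 < δ → ∃ n₀ : ℕ, ∀ n : ℕ, n₀ ≤ n → ∀ S : Finset ℕ, S ⊆ range (b ^ n) →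
      Symmetric b n S → (∀ x ∈ S, (b + 1) / 2 < (frequent b n (ε * n) x).card) →
      ∀ A : Finset ℕ, A ⊆ S → APFree A → (A.card : ℝ) ≤ δ * S.card) ∧
    (∀ ε : ℝ, 0 < ε → ∀ δ : ℝ, 0 < δ → ∃ n₀ : ℕ, ∀ n : ℕ, n₀ ≤ n → ∀ S : Finset ℕ, S ⊆ range (b ^ n) →
      Symmetric b n S → ((((b + 1) / 2 : ℕ) : ℝ) + ε) ^ n ≤ S.card →
      ∀ A : Finset ℕ, A ⊆ S → APFree A → (A.card : ℝ) ≤ δ * S.card) ∧
    (∃ C : ℕ, ∀ n : ℕ, 1 ≤ n → ∃ S : Finset ℕ, S ⊆ range (b ^ n) ∧ Symmetric b n S ∧ APFree S ∧
      (((b + 1) / 2 : ℕ) : ℝ) ^ n ≤ C * n * S.card) := by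
  classical
  refine ⟨?_, ?_, ?_⟩
  · intro ε hε δ hδ
    obtain ⟨n₀, h0⟩ := relative_freq hb hε hδ
    refine ⟨n₀, fun n hn S hS hSs hSf A hAS hA => ?_⟩
    have h1 := h0 n hn (words b n S) (words b n A) (words_sym hSs) (fun u hu => by
      have h2 := hSf _ (mem_words.1 hu)
      rwa [frequent_card] at h2) (words_mono hAS) (words_free hA)
    rwa [words_card hS, words_card (hAS.trans hS)] at h1
  · intro ε hε δ hδ
    obtain ⟨n₀, h0⟩ := relative hb hε hδ
    refine ⟨n₀, fun n hn S hS hSs hSc A hAS hA => ?_⟩
    have h1 := h0 n hn (words b n S) (words b n A) (words_sym hSs) (by rwa [words_card hS]) (words_mono hAS)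
      (words_free hA)
    rwa [words_card hS, words_card (hAS.trans hS)] at h1
  · refine ⟨((b + 1) / 2) ^ 2 + 1, fun n hn => ?_⟩
    obtain ⟨B, hB, hS, hc⟩ := lower hb n
    refine ⟨B.image Pool.Agent.L5helper7.DS.val, ?_, ?_, ?_, ?_⟩
    · intro x hx
      rw [mem_image] at hx
      obtain ⟨u, -, rfl⟩ := hx
      exact mem_range.2 (val_lt u)
    · intro σ x hx
      rw [mem_image] at hx
      obtain ⟨u, hu, rfl⟩ := hx
      rw [rearrange_val]
      exact mem_image_of_mem _ (hS σ u hu)
    · intro x hx y hy z hz hxyz
      rw [mem_image] at hx hy hz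
      obtain ⟨u, hu, rfl⟩ := hx
      obtain ⟨v, hv, rfl⟩ := hy
      obtain ⟨w, hw, rfl⟩ := hz
      rw [hB u hu v hv w hw hxyz]
    · rw [card_image_of_injective _ val_inj]
      have h1 : (((b + 1) / 2) ^ 2 * n + 1) * B.card ≤ (((b + 1) / 2) ^ 2 + 1) * n * B.card := by
        apply Nat.mul_le_mul_right
        nlinarith
      have h2 : ((b + 1) / 2) ^ n ≤ (((b + 1) / 2) ^ 2 + 1) * n * B.card := by
        refine hc.trans (le_trans (le_of_eq ?_) h1)
        ring
      exact_mod_cast h2

end Pool.Agent.Results.MP_0f71ae_nt.RelativeRoth
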